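import Pool.Agent.X245.LF.Defs
import Pool.Agent.X245.Util
import Pool.Agent.H687R2.IntPoly
import Pool.Agent.H671R2.PolyAuto
import Pool.Agent.X249.Kit

/-!
# Solution-free subsets: membership in NP
-/

namespace Pool.Agent.X245.LF

open Pool.Agent.NPC

set_option autoImplicit false

variable {ℓ : ℕ} (a : Fin ℓ → ℕ) (b : ℕ)

/-- all lists of length `m` with entries in `S` -/
def tups (S : List ℤ) : ℕ → List (List ℤ)
  | 0 => [[]]
  | m + 1 => S.flatMap fun x => (tups S m).map fun l => x :: l

theorem mem_tups (S : List ℤ) : ∀ (m : ℕ) (l : List ℤ), l ∈ tups S m ↔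
    l.length = m ∧ ∀ x ∈ l, x ∈ S := by
  intro m
  induction m with
  | zero =>
    intro l
    rw [tups, List.mem_singleton]
    constructor
    · rintro rfl; simp
    · rintro ⟨h, _⟩; exact List.length_eq_zero_iff.1 h
  | succ m ih =>
    intro l
    rw [tups, List.mem_flatMap]
    constructor
    · rintro ⟨x, hx, h⟩
      obtain ⟨l', hl', rfl⟩ := List.mem_map.1 h
      obtain ⟨h1, h2⟩ := (ih l').1 hl'
      refine ⟨by simp [h1], fun y hy => ?_⟩
      rcases List.mem_cons.1 hy with rfl | hy
      · exact hx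
      · exact h2 y hy
    · rintro ⟨h1, h2⟩
      cases l with
      | nil => simp at h1
      | cons x l =>
        refine ⟨x, h2 x (by simp), List.mem_map.2 ⟨l, (ih l).2 ⟨by simpa using h1,
          fun y hy => h2 y (by simp [hy])⟩, rfl⟩⟩

theorem poly_tups {α : Type} [TEnc α] {S : α → List ℤ} (hS : NPC.Poly S) (m : ℕ) :
    NPC.Poly (fun x => tups (S x) m) := by
  induction m with
  | zero => exact NPC.Poly.const _
  | succ m ih =>
    refine NPC.Poly.flatMap (l := S) (F := fun y x => (tups (S y) m).map fun l => x :: l) hS ?_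
    refine NPC.Poly.map (l := fun y : α × ℤ => tups (S y.1) m)
      (F := fun y l => y.2 :: l) (ih.comp (NPC.Poly.fst NPC.Poly.id)) ?_
    fun_prop

/-- the coefficients as a list -/
def cs : List ℤ := (List.finRange (ℓ + 1)).map (coeff a b)

/-- the test of a tuple -/
def tupB (c l : List ℤ) : Bool :=
  !decide (((c.zip l).map fun t => t.1 * t.2).sum = 0) ||
    l.all fun x => decide ((((c.zip l).filter fun t => decide (t.2 = x)).map fun t => t.1).sum = 0)

/-- the check -/
def chk (x : (List ℤ × ℕ) × List ℤ) : Bool :=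
  decide (x.1.1.Nodup) && (decide (x.2.Nodup) && ((x.2.all fun y => decide (y ∈ x.1.1)) &&
    (decide (x.1.2 ≤ x.2.length) && (tups x.2 (ℓ + 1)).all fun l => tupB (cs a b) l)))

theorem trivial_iff (c z : Fin (ℓ + 1) → ℤ) : Trivial c z ↔
    ∀ i, ∑ j with z j = z i, c j = 0 := by
  classical
  constructor
  · rintro ⟨r, h1, h2⟩ i
    -- the fibre is a union of classes
    have h3 : ∑ j with z j = z i, c j =
        ∑ q ∈ (Finset.univ.filter fun j => z j = z i).image (fun j => (Quotient.mk r j)),
          ∑ j with (Quotient.mk r j) = q, c j := by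
      rw [← Finset.sum_fiberwise_of_maps_to (s := Finset.univ.filter fun j => z j = z i)
        (t := (Finset.univ.filter fun j => z j = z i).image (fun j => (Quotient.mk r j)))
        (g := fun j => Quotient.mk r j) (fun j hj => Finset.mem_image_of_mem _ hj)]
      refine Finset.sum_congr rfl fun q hq => ?_
      obtain ⟨j0, hj0, rfl⟩ := Finset.mem_image.1 hq
      rw [Finset.filter_filter]
      refine Finset.sum_congr ?_ fun _ _ => rfl
      ext j
      simp only [Finset.mem_filter, Finset.mem_univ, true_and]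
      constructor
      · exact fun h => h.2
      · intro h
        exact ⟨(h1 _ _ (Quotient.exact h)).trans (Finset.mem_filter.1 hj0).2, h⟩
    rw [h3]
    refine Finset.sum_eq_zero fun q hq => ?_
    obtain ⟨j0, _, rfl⟩ := Finset.mem_image.1 hq
    rw [← h2 j0]
    refine Finset.sum_congr ?_ fun _ _ => rfl
    ext j
    simp only [Finset.mem_filter, Finset.mem_univ, true_and]
    constructor
    · intro h; exact r.symm (Quotient.exact h)
    · intro h; exact Quotient.sound (r.symm h)
  · intro h
    refine ⟨⟨fun i j => z i = z j, ⟨fun _ => rfl, fun h => h.symm, fun h h' => h.trans h'⟩⟩,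
      fun _ _ h => h, fun i => ?_⟩
    rw [← h i]
    refine Finset.sum_congr ?_ fun _ _ => rfl
    ext j
    simp only [Finset.mem_filter, Finset.mem_univ, true_and]
    exact eq_comm

theorem zip_ofFn (z : Fin (ℓ + 1) → ℤ) : (cs a b).zip (List.ofFn z) =
    (List.finRange (ℓ + 1)).map fun i => (coeff a b i, z i) := by
  unfold cs
  rw [List.ofFn_eq_map, List.zip_map']

theorem sum_finRange (f : Fin (ℓ + 1) → ℤ) : ((List.finRange (ℓ + 1)).map f).sum = ∑ i, f i := by
  rw [← List.sum_ofFn, List.ofFn_eq_map]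

theorem tupB_iff (z : Fin (ℓ + 1) → ℤ) : tupB (cs a b) (List.ofFn z) = true ↔
    (∑ i, coeff a b i * z i = 0 → Trivial (coeff a b) z) := by
  unfold tupB
  rw [zip_ofFn, Bool.or_eq_true, Bool.not_eq_true', decide_eq_false_iff_not, List.all_eq_true,
    List.map_map]
  have h1 : ((List.finRange (ℓ + 1)).map ((fun t : ℤ × ℤ => t.1 * t.2) ∘
      fun i => (coeff a b i, z i))).sum = ∑ i, coeff a b i * z i := sum_finRange _
  rw [h1, ← imp_iff_not_or, trivial_iff]
  refine imp_congr_right fun _ => ?_
  have h2 : ∀ x : ℤ, ((((List.finRange (ℓ + 1)).map fun i => (coeff a b i, z i)).filter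
      fun t => decide (t.2 = x)).map fun t => t.1).sum = ∑ j with z j = x, coeff a b j := by
    intro x
    rw [List.filter_map, List.map_map, Finset.sum_filter, ← sum_finRange]
    have h3 : ∀ L : List (Fin (ℓ + 1)), ((L.filter ((fun t : ℤ × ℤ => decide (t.2 = x)) ∘
        fun i => (coeff a b i, z i))).map ((fun t : ℤ × ℤ => t.1) ∘
        fun i => (coeff a b i, z i))).sum =
        (L.map fun j => if z j = x then coeff a b j else 0).sum := by
      intro L
      induction L with
      | nil => rfl
      | cons j L ih =>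
        rw [List.map_cons, List.sum_cons, ← ih]
        by_cases hj : z j = x
        · rw [List.filter_cons_of_pos (by simpa using hj), List.map_cons, List.sum_cons,
            if_pos hj]
          rfl
        · rw [List.filter_cons_of_neg (by simpa using hj), if_neg hj, zero_add]
    exact h3 _
  constructor
  · intro h i
    have := h (z i) ((List.mem_ofFn' z _).2 ⟨i, rfl⟩)
    rw [decide_eq_true_eq, h2] at this
    exact this
  · intro h x hx
    obtain ⟨i, rfl⟩ := (List.mem_ofFn' z _).1 hx
    rw [decide_eq_true_eq, h2]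
    exact h i

theorem chk_iff (x : List ℤ × ℕ) : LFS a b x ↔ ∃ w, w.length ≤ x.1.length ∧ w.Nodup ∧
    (∀ y ∈ w, y ∈ x.1) ∧ chk a b (x, w) = true := by
  unfold LFS
  have key : ∀ w : List ℤ, (tups w (ℓ + 1)).all (fun l => tupB (cs a b) l) = true ↔
      LFree (coeff a b) (w.toFinset : Set ℤ) := by
    intro w
    rw [List.all_eq_true]
    constructor
    · intro h z hz
      rw [← tupB_iff]
      refine h _ ((mem_tups _ _ _).2 ⟨List.length_ofFn, fun y hy => ?_⟩)
      obtain ⟨i, rfl⟩ := (List.mem_ofFn' z _).1 hy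
      simpa using hz i
    · intro h l hl
      obtain ⟨h1, h2⟩ := (mem_tups _ _ _).1 hl
      have h3 : l = List.ofFn (fun i : Fin (ℓ + 1) => l[i.val]'(by omega)) := by
        apply List.ext_getElem
        · simp [h1]
        · intro i h4 h5
          rw [List.getElem_ofFn]
      rw [h3, tupB_iff]
      refine h _ fun i => ?_
      rw [Finset.mem_coe, List.mem_toFinset]
      exact h2 _ (List.getElem_mem _)
  constructor
  · rintro ⟨h1, S, h2, h3, h4⟩
    have h5 : S.toList.toFinset = S := Finset.toList_toFinset S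
    refine ⟨S.toList, ?_, Finset.nodup_toList S, ?_, ?_⟩
    · rw [Finset.length_toList, ← List.toFinset_card_of_nodup h1]
      exact Finset.card_le_card h2
    · intro y hy
      exact List.mem_toFinset.1 (h2 (Finset.mem_toList.1 hy))
    · unfold chk
      simp only [Bool.and_eq_true, decide_eq_true_eq]
      refine ⟨h1, Finset.nodup_toList S, ?_, ?_, ?_⟩
      · rw [List.all_eq_true]
        intro y hy
        rw [decide_eq_true_eq]
        exact List.mem_toFinset.1 (h2 (Finset.mem_toList.1 hy))
      · rw [Finset.length_toList]; exact h4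
      · rw [key, h5]; exact h3
  · rintro ⟨w, h1, h2, h3, h4⟩
    unfold chk at h4
    simp only [Bool.and_eq_true, decide_eq_true_eq] at h4
    obtain ⟨h5, h6, h7, h8, h9⟩ := h4
    refine ⟨h5, w.toFinset, ?_, (key w).1 h9, ?_⟩
    · intro y hy
      exact List.mem_toFinset.2 (h3 y (List.mem_toFinset.1 hy))
    · rw [List.toFinset_card_of_nodup h2]
      exact h8

attribute [local fun_prop] Poly.iadd Poly.isub Poly.imul Poly.ineg Poly.natAbs Poly.isum

theorem chk_poly : NPC.Poly (chk a b) := by
  unfold chk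
  have ht : NPC.Poly (fun x : (List ℤ × ℕ) × List ℤ => tups x.2 (ℓ + 1)) :=
    poly_tups (NPC.Poly.snd NPC.Poly.id) _
  have hB : NPC.Poly (fun y : ((List ℤ × ℕ) × List ℤ) × List ℤ => tupB (cs a b) y.2) := by
    unfold tupB
    fun_prop
  refine NPC.Poly.and (Pool.Agent.X249.dec_nodup (by fun_prop)) (NPC.Poly.and
    (Pool.Agent.X249.dec_nodup (by fun_prop)) (NPC.Poly.and (by fun_prop)
    (NPC.Poly.and (by fun_prop) ?_)))
  exact NPC.Poly.all (l := fun x : (List ℤ × ℕ) × List ℤ => tups x.2 (ℓ + 1))
    (p := fun _ l => tupB (cs a b) l) ht hB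

/-- the small instances -/
def chkS (p : Polynomial ℕ) (x : (List ℤ × ℕ) × List ℤ) : Bool :=
  (x.1.1.all fun y => decide (y.natAbs ≤ p.eval x.1.1.length)) && chk a b x

theorem chkS_poly (p : Polynomial ℕ) : NPC.Poly (chkS a b p) := by
  unfold chkS
  have h1 : NPC.Poly (fun x : (List ℤ × ℕ) × List ℤ => p.eval x.1.1.length) :=
    (UPoly.eval (UPoly.length (by fun_prop)) p).toPoly
  refine NPC.Poly.and ?_ (chk_poly a b)
  refine NPC.Poly.all (l := fun x : (List ℤ × ℕ) × List ℤ => x.1.1)
    (p := fun x y => decide (y.natAbs ≤ p.eval x.1.1.length)) (by fun_prop) ?_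
  exact NPC.Poly.decide_le (by fun_prop) (h1.comp (NPC.Poly.fst NPC.Poly.id))

theorem sz_perm {l l' : List ℤ} (h : l.Perm l') : sz l = sz l' := by
  induction h with
  | nil => rfl
  | cons x _ ih => rw [sz_list_cons, sz_list_cons, ih]
  | swap x y l => rw [sz_list_cons, sz_list_cons, sz_list_cons, sz_list_cons]; omega
  | trans _ _ ih1 ih2 => rw [ih1, ih2]

theorem sz_sublist {l l' : List ℤ} (h : l.Sublist l') : sz l ≤ sz l' := by
  induction h with
  | slnil => exact le_rfl
  | cons x _ ih => rw [sz_list_cons]; omega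
  | cons_cons x _ ih => rw [sz_list_cons, sz_list_cons]; omega

theorem sz_sub (x : List ℤ × ℕ) (w : List ℤ) (h1 : w.Nodup) (h2 : ∀ y ∈ w, y ∈ x.1) :
    sz w ≤ sz x := by
  obtain ⟨l, h3, h4⟩ := List.subperm_of_subset h1 h2
  rw [← sz_perm h3]
  refine (sz_sublist h4).trans ?_
  obtain ⟨x1, x2⟩ := x
  rw [sz_pair]
  simp only
  omega

theorem mem_NP : InNPP (LFS a b) := by
  refine inNPP_of (chk_poly a b) (Polynomial.X) fun x => ?_
  rw [chk_iff, Polynomial.eval_X]
  constructor
  · rintro ⟨w, _, h2, h3, h4⟩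
    exact ⟨w, sz_sub x w h2 h3, h4⟩
  · rintro ⟨w, _, h4⟩
    have h5 := h4
    unfold chk at h5
    simp only [Bool.and_eq_true, decide_eq_true_eq, List.all_eq_true] at h5
    refine ⟨w, ?_, h5.2.1, h5.2.2.1, h4⟩
    have h6 : w.toFinset ⊆ x.1.toFinset := by
      intro y hy
      exact List.mem_toFinset.2 (h5.2.2.1 y (List.mem_toFinset.1 hy))
    have h7 := Finset.card_le_card h6
    rwa [List.toFinset_card_of_nodup h5.2.1, List.toFinset_card_of_nodup h5.1] at h7

theorem memS_NP (p : Polynomial ℕ) : InNPP (LFSsmall a b p) := by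
  refine inNPP_of (chkS_poly a b p) (Polynomial.X) fun x => ?_
  unfold LFSsmall chkS
  simp only [Bool.and_eq_true, List.all_eq_true, decide_eq_true_eq]
  rw [chk_iff, Polynomial.eval_X]
  constructor
  · rintro ⟨h0, w, _, h2, h3, h4⟩
    exact ⟨w, sz_sub x w h2 h3, h0, h4⟩
  · rintro ⟨w, _, h0, h4⟩
    have h5 := h4
    unfold chk at h5
    simp only [Bool.and_eq_true, decide_eq_true_eq, List.all_eq_true] at h5
    refine ⟨h0, w, ?_, h5.2.1, h5.2.2.1, h4⟩
    have h6 : w.toFinset ⊆ x.1.toFinset := by
      intro y hy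
      exact List.mem_toFinset.2 (h5.2.2.1 y (List.mem_toFinset.1 hy))
    have h7 := Finset.card_le_card h6
    rwa [List.toFinset_card_of_nodup h5.2.1, List.toFinset_card_of_nodup h5.1] at h7

end Pool.Agent.X245.LF
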