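import Mathlib

/-!
# Small generic numbers
-/

namespace Pool.Agent.X245.LF

set_option autoImplicit false

open Finset

/-- `1 + x + ⋯ + x^(s-1)` -/
def geo : ℕ → ℕ → ℕ
  | 0, _ => 0
  | s + 1, x => 1 + x * geo s x

theorem geo_eq (s x : ℕ) : geo s x = ∑ t ∈ range s, x ^ t := by
  induction s with
  | zero => rfl
  | succ s ih =>
    rw [geo, ih, sum_range_succ', mul_sum, pow_zero, add_comm]
    congr 1
    refine sum_congr rfl fun t _ => ?_
    rw [pow_succ]; ring

theorem digits_zero (W : ℤ) (hW : 0 < W) : ∀ (s : ℕ) (D : ℕ → ℤ), (∀ t < s, 2 * |D t| < W) →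
    ∑ t ∈ range s, D t * W ^ t = 0 → ∀ t < s, D t = 0 := by
  intro s
  induction s with
  | zero => intro D _ _ t ht; omega
  | succ s ih =>
    intro D hD hsum t ht
    rw [sum_range_succ'] at hsum
    have h1 : ∑ k ∈ range s, D (k + 1) * W ^ (k + 1) = W * ∑ k ∈ range s, D (k + 1) * W ^ k := by
      rw [mul_sum]
      refine sum_congr rfl fun k _ => ?_
      rw [pow_succ]; ring
    rw [h1, pow_zero, mul_one] at hsum
    have h0 : D 0 = 0 := by
      have hd := hD 0 (by omega)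
      set Z := ∑ k ∈ range s, D (k + 1) * W ^ k with hZ
      have h2 : D 0 = -(W * Z) := by linarith
      by_contra hne
      have hZ0 : Z ≠ 0 := by
        rintro h3
        rw [h3] at h2
        simp at h2
        exact hne h2
      have h3 : W ≤ |D 0| := by
        rw [h2, abs_neg, abs_mul, abs_of_pos hW]
        have : 1 ≤ |Z| := Int.one_le_abs hZ0
        nlinarith
      have h4 := abs_nonneg (D 0)
      linarith
    have hZ0 : ∑ k ∈ range s, D (k + 1) * W ^ k = 0 := by
      rw [h0, add_zero] at hsum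
      rcases mul_eq_zero.1 hsum with h | h
      · omega
      · exact h
    cases t with
    | zero => exact h0
    | succ t => exact ih (fun k => D (k + 1)) (fun k hk => hD (k + 1) (by omega)) hZ0 t (by omega)

/-- Vandermonde -/
theorem moments_zero (T : Finset ℕ) (s : ℕ) (hT : T.card ≤ s) (lam : ℕ → ℤ)
    (h : ∀ t < s, ∑ k ∈ T, lam k * (k : ℤ) ^ t = 0) : ∀ k ∈ T, lam k = 0 := by
  classical
  intro k hk
  have hpoly : ∀ P : Polynomial ℤ, P.natDegree < s → ∑ j ∈ T, lam j * P.eval (j : ℤ) = 0 := by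
    intro P hP
    have h1 : ∀ j ∈ T, lam j * P.eval (j : ℤ) =
        ∑ t ∈ range (P.natDegree + 1), P.coeff t * (lam j * (j : ℤ) ^ t) := by
      intro j _
      rw [Polynomial.eval_eq_sum_range, mul_sum]
      refine sum_congr rfl fun t _ => by ring
    rw [sum_congr rfl h1, sum_comm]
    refine sum_eq_zero fun t ht => ?_
    rw [← mul_sum, h t (by have := mem_range.1 ht; omega), mul_zero]
  set P : Polynomial ℤ := ∏ j ∈ T.erase k, (Polynomial.X - Polynomial.C (j : ℤ)) with hP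
  have hdeg : P.natDegree < s := by
    rw [hP, Polynomial.natDegree_prod_of_monic _ _ (fun j _ => Polynomial.monic_X_sub_C _)]
    simp only [Polynomial.natDegree_X_sub_C, sum_const, smul_eq_mul, mul_one]
    rw [card_erase_of_mem hk]
    have := card_pos.2 ⟨k, hk⟩
    omega
  have h1 := hpoly P hdeg
  have h2 : ∀ j : ℕ, P.eval (j : ℤ) = ∏ i ∈ T.erase k, ((j : ℤ) - i) := by
    intro j
    rw [hP, Polynomial.eval_prod]
    simp
  rw [← add_sum_erase T _ hk] at h1
  have h3 : ∑ j ∈ T.erase k, lam j * P.eval (j : ℤ) = 0 := by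
    refine sum_eq_zero fun j hj => ?_
    rw [h2, prod_eq_zero hj (sub_self _), mul_zero]
  rw [h3, add_zero, h2] at h1
  rcases mul_eq_zero.1 h1 with h4 | h4
  · exact h4
  · obtain ⟨i, hi, h5⟩ := prod_eq_zero_iff.1 h4
    have : (k : ℤ) = i := by linarith
    have : k = i := by exact_mod_cast this
    exact absurd this.symm (mem_erase.1 hi).1

/-- **Generic numbers.** -/
theorem generic (s J Λ W : ℕ) (hW : 2 * s * Λ * J ^ s < W) (T : Finset ℕ) (hT : T.card ≤ s)
    (hTJ : ∀ k ∈ T, k < J) (lam : ℕ → ℤ) (hlam : ∀ k, |lam k| ≤ Λ)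
    (h : ∑ k ∈ T, lam k * (geo s (k * W) : ℤ) = 0) : ∀ k ∈ T, lam k = 0 := by
  rcases T.eq_empty_or_nonempty with rfl | hne
  · intro k hk; simp at hk
  have hJ : 1 ≤ J := by obtain ⟨k, hk⟩ := hne; have := hTJ k hk; omega
  refine moments_zero T s hT lam ?_
  have h1 : ∑ t ∈ range s, (∑ k ∈ T, lam k * (k : ℤ) ^ t) * (W : ℤ) ^ t = 0 := by
    rw [← h]
    have h2 : ∀ k ∈ T, lam k * (geo s (k * W) : ℤ) =
        ∑ t ∈ range s, lam k * (k : ℤ) ^ t * (W : ℤ) ^ t := by
      intro k _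
      rw [geo_eq]
      push_cast
      rw [mul_sum]
      refine sum_congr rfl fun t _ => by rw [mul_pow]; ring
    rw [sum_congr rfl h2, sum_comm]
    refine sum_congr rfl fun t _ => by rw [sum_mul]
  refine digits_zero W (by omega) s _ ?_ h1
  intro t ht
  have h2 : |∑ k ∈ T, lam k * (k : ℤ) ^ t| ≤ ∑ k ∈ T, (Λ * (J : ℤ) ^ s) := by
    refine (abs_sum_le_sum_abs _ _).trans (sum_le_sum fun k hk => ?_)
    rw [abs_mul, abs_of_nonneg (by positivity : (0 : ℤ) ≤ (k : ℤ) ^ t)]
    have h3 : (k : ℤ) ^ t ≤ (J : ℤ) ^ s := by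
      have h4 : (k : ℤ) ≤ J := by exact_mod_cast (hTJ k hk).le
      calc (k : ℤ) ^ t ≤ (J : ℤ) ^ t := pow_le_pow_left₀ (by positivity) h4 t
        _ ≤ (J : ℤ) ^ s := pow_le_pow_right₀ (by exact_mod_cast hJ) ht.le
    exact mul_le_mul (hlam k) h3 (by positivity) (by positivity)
  rw [sum_const, nsmul_eq_mul] at h2
  have h3 : ((T.card : ℤ)) * (Λ * (J : ℤ) ^ s) ≤ s * (Λ * (J : ℤ) ^ s) :=
    mul_le_mul_of_nonneg_right (by exact_mod_cast hT) (by positivity)
  have h4 : (2 * s * Λ * J ^ s : ℤ) < W := by exact_mod_cast hW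
  linarith

end Pool.Agent.X245.LF
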