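import Pool.Agent.X245.LF.Defs
import Pool.Agent.X245.LF.Gen

/-!
# Solution-free subsets: the gadgets
-/

namespace Pool.Agent.X245.LF

set_option autoImplicit false

open Finset

/-- formal elements -/
inductive El
  | X (k : ℕ)
  | Y (p r : ℕ)
  deriving DecidableEq

variable {ℓ : ℕ} (a : Fin ℓ → ℕ) (b n : ℕ)

/-- the variables of the equation of a pair -/
def vv (ℓ n p r i : ℕ) : ℕ := if i = 0 then p else if i = 1 then r else n + (p * n + r) * ℓ + i

/-- the formal linear form of an element -/
def form : El → ℕ → ℤ
  | El.X k0, k => if k = k0 then b else 0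
  | El.Y p r, k => ∑ i : Fin ℓ, if k = vv ℓ n p r i then (a i : ℤ) else 0

/-- the elements in use: variables below `J` and pairs `p < r < n` -/
def Ok (J : ℕ) : El → Prop
  | El.X k => k < J
  | El.Y p r => p < r ∧ r < n

/-- bound for the variables -/
def JJ (ℓ n : ℕ) : ℕ := n + (n * n + n) * ℓ + ℓ

/-- value of an element -/
def value (num : ℕ → ℕ) : El → ℤ
  | El.X k => b * num k
  | El.Y p r => ∑ i : Fin ℓ, (a i : ℤ) * num (vv ℓ n p r i)

theorem vv_lt {p r i : ℕ} (hp : p < n) (hr : r < n) (hi : i < ℓ) : vv ℓ n p r i < JJ ℓ n := by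
  unfold vv JJ
  have h1 : (p * n + r) * ℓ ≤ (n * n + n) * ℓ := by
    refine Nat.mul_le_mul_right _ ?_
    have : p * n ≤ n * n := Nat.mul_le_mul_right _ hp.le
    omega
  split_ifs <;> omega

theorem vv_inj {p r i j : ℕ} (hpr : p < r) (hr : r < n) (hi : i < ℓ) (hj : j < ℓ)
    (h : vv ℓ n p r i = vv ℓ n p r j) : i = j := by
  unfold vv at h
  split_ifs at h <;> omega

theorem vv_small {p r i p' : ℕ} (hp' : p' < n) (h : p' = vv ℓ n p r i) :
    p' = p ∨ p' = r := by
  unfold vv at h
  split_ifs at h
  · left; exact h
  · right; exact h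
  · exfalso
    have : n ≤ p' := by rw [h]; omega
    omega

theorem form_X (k0 k : ℕ) : form a b n (El.X k0) k = if k = k0 then (b : ℤ) else 0 := rfl

theorem form_Yd (p r k : ℕ) : form a b n (El.Y p r) k =
    ∑ i : Fin ℓ, if k = vv ℓ n p r i then (a i : ℤ) else 0 := rfl

theorem form_nonneg (x : El) (k : ℕ) : 0 ≤ form a b n x k := by
  cases x with
  | X k0 => rw [form_X]; split_ifs <;> positivity
  | Y p r =>
    rw [form_Yd]
    refine sum_nonneg fun i _ => ?_
    split_ifs <;> positivity

theorem form_Y {p r : ℕ} (hpr : p < r) (hr : r < n) (i : Fin ℓ) :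
    form a b n (El.Y p r) (vv ℓ n p r i) = a i := by
  rw [form_Yd]
  rw [sum_eq_single i]
  · simp
  · intro j _ hj
    rw [if_neg]
    intro h
    exact hj (Fin.ext (vv_inj n hpr hr i.2 j.2 h)).symm
  · simp

theorem form_Y_ne {p r k : ℕ} (h : ∀ i : Fin ℓ, k ≠ vv ℓ n p r i) :
    form a b n (El.Y p r) k = 0 := by
  rw [form_Yd]
  exact sum_eq_zero fun i _ => if_neg (h i)

variable {a b n}

/-- **The analysis of the formal solutions.** -/
theorem formal (hℓ : 2 ≤ ℓ) (ha : ∀ i, 0 < a i) (hb : 0 < b) {J : ℕ} (z : Fin (ℓ + 1) → El)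
    (hz : ∀ i, Ok n J (z i)) (h : ∀ k, ∑ j, coeff a b j * form a b n (z j) k = 0) :
    ((∀ i, z i = z (Fin.last ℓ)) ∧ ∑ j, coeff a b j = 0) ∨
      ∃ p r, z (Fin.last ℓ) = El.Y p r ∧ ∀ i : Fin ℓ, ∃ j, z j = El.X (vv ℓ n p r i) := by
  have hsum : ∀ f : Fin (ℓ + 1) → ℤ, ∑ j, coeff a b j * f j =
      ∑ i : Fin ℓ, (a i : ℤ) * f i.castSucc - b * f (Fin.last ℓ) := by
    intro f
    rw [Fin.sum_univ_castSucc]
    unfold coeff
    simp only [Fin.snoc_castSucc, Fin.snoc_last]
    ring
  have hk : ∀ k, ∑ i : Fin ℓ, (a i : ℤ) * form a b n (z i.castSucc) k =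
      b * form a b n (z (Fin.last ℓ)) k := by
    intro k
    have := h k
    rw [hsum] at this
    linarith
  have hzero : ∀ k, form a b n (z (Fin.last ℓ)) k = 0 → ∀ i : Fin ℓ,
      form a b n (z i.castSucc) k = 0 := by
    intro k hk0 i
    have h1 := hk k
    rw [hk0, mul_zero] at h1
    have h2 := (sum_eq_zero_iff_of_nonneg (fun i _ =>
      mul_nonneg (by positivity) (form_nonneg a b n _ _))).1 h1 i (mem_univ i)
    rcases mul_eq_zero.1 h2 with h3 | h3
    · have := ha i; omega
    · exact h3
  have i0 : Fin ℓ := ⟨0, by omega⟩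
  have h0 : (0 : ℕ) < ℓ := by omega
  have h1 : (1 : ℕ) < ℓ := by omega
  have hcast : ∀ (P : Fin (ℓ + 1) → Prop), (∀ i : Fin ℓ, P i.castSucc) → P (Fin.last ℓ) →
      ∀ i, P i := by
    intro P h1 h2 i
    exact Fin.lastCases h2 h1 i
  rcases hl : z (Fin.last ℓ) with k0 | ⟨p, r⟩
  · -- the last one is a variable
    left
    have hall : ∀ i : Fin ℓ, z i.castSucc = El.X k0 := by
      intro i
      have hout : ∀ k, k ≠ k0 → form a b n (z i.castSucc) k = 0 := by
        intro k hk'
        refine hzero k ?_ i
        rw [hl]
        rw [form_X, if_neg hk']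
      rcases hi : z i.castSucc with k1 | ⟨p, r⟩
      · by_contra hne
        have hk1 : k1 ≠ k0 := by rintro rfl; exact hne rfl
        have := hout k1 hk1
        rw [hi] at this
        rw [form_X] at this
        rw [if_pos rfl] at this
        omega
      · exfalso
        have hok := hz i.castSucc
        rw [hi] at hok
        obtain ⟨hpr, hr⟩ := hok
        have hp0 : p = k0 := by
          by_contra hne
          have := hout p hne
          rw [hi] at this
          have h2 := form_Y a b n hpr hr ⟨0, h0⟩
          have h3 : vv ℓ n p r 0 = p := by unfold vv; simp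
          simp only [h3] at h2
          rw [h2] at this
          have := ha ⟨0, h0⟩
          omega
        have hr0 : r = k0 := by
          by_contra hne
          have := hout r hne
          rw [hi] at this
          have h2 := form_Y a b n hpr hr ⟨1, h1⟩
          have h3 : vv ℓ n p r 1 = r := by unfold vv; simp
          simp only [h3] at h2
          rw [h2] at this
          have := ha ⟨1, h1⟩
          omega
        omega
    refine ⟨hcast _ hall hl, ?_⟩
    have h2 := hk k0
    rw [hl] at h2
    have h3 : form a b n (El.X k0) k0 = b := by rw [form_X, if_pos rfl]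
    rw [h3] at h2
    have h4 : ∑ i : Fin ℓ, (a i : ℤ) * form a b n (z i.castSucc) k0 =
        (∑ i : Fin ℓ, (a i : ℤ)) * b := by
      rw [sum_mul]
      refine sum_congr rfl fun i _ => ?_
      rw [hall i, h3]
    rw [h4] at h2
    have h5 : (∑ i : Fin ℓ, (a i : ℤ)) = b :=
      mul_right_cancel₀ (by positivity : (b : ℤ) ≠ 0) h2
    have h6 := hsum (fun _ => 1)
    simp only [mul_one] at h6
    rw [h6, h5]; ring
  · -- the last one belongs to a pair
    have hokl := hz (Fin.last ℓ)
    rw [hl] at hokl
    obtain ⟨hpr, hr⟩ := hokl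
    have hkind : ∀ i : Fin ℓ, z i.castSucc = El.Y p r ∨
        ∃ t : Fin ℓ, z i.castSucc = El.X (vv ℓ n p r t) := by
      intro i
      have hout : ∀ k, (∀ t : Fin ℓ, k ≠ vv ℓ n p r t) → form a b n (z i.castSucc) k = 0 := by
        intro k hk'
        refine hzero k ?_ i
        rw [hl]
        exact form_Y_ne a b n hk'
      rcases hi : z i.castSucc with k1 | ⟨p', r'⟩
      · right
        by_contra hne
        push Not at hne
        have := hout k1 (fun t ht => hne t (by rw [ht]))
        rw [hi] at this
        rw [form_X] at this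
        rw [if_pos rfl] at this
        omega
      · left
        have hok := hz i.castSucc
        rw [hi] at hok
        obtain ⟨hpr', hr'⟩ := hok
        have hp0 : p' = p ∨ p' = r := by
          by_contra hne
          have := hout p' (fun t ht => hne (vv_small n (by omega) ht))
          rw [hi] at this
          have h2 := form_Y a b n hpr' hr' ⟨0, h0⟩
          have h3 : vv ℓ n p' r' 0 = p' := by unfold vv; simp
          simp only [h3] at h2
          rw [h2] at this
          have := ha ⟨0, h0⟩
          omega
        have hr0 : r' = p ∨ r' = r := by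
          by_contra hne
          have := hout r' (fun t ht => hne (vv_small n (by omega) ht))
          rw [hi] at this
          have h2 := form_Y a b n hpr' hr' ⟨1, h1⟩
          have h3 : vv ℓ n p' r' 1 = r' := by unfold vv; simp
          simp only [h3] at h2
          rw [h2] at this
          have := ha ⟨1, h1⟩
          omega
        have e1 : p' = p := by omega
        have e2 : r' = r := by omega
        rw [e1, e2]
    -- the balance at the variable number `t`
    have hbal : ∀ t : Fin ℓ, (a t : ℤ) * (b - ∑ i : Fin ℓ,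
        (if z i.castSucc = El.Y p r then (a i : ℤ) else 0)) =
        b * ∑ i : Fin ℓ, (if z i.castSucc = El.X (vv ℓ n p r t) then (a i : ℤ) else 0) := by
      intro t
      have h2 := hk (vv ℓ n p r t)
      rw [hl, form_Y a b n hpr hr] at h2
      have h3 : ∀ i : Fin ℓ, (a i : ℤ) * form a b n (z i.castSucc) (vv ℓ n p r t) =
          (a t : ℤ) * (if z i.castSucc = El.Y p r then (a i : ℤ) else 0) +
          b * (if z i.castSucc = El.X (vv ℓ n p r t) then (a i : ℤ) else 0) := by
        intro i
        rcases hkind i with h4 | ⟨t', h4⟩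
        · rw [h4, form_Y a b n hpr hr, if_pos rfl, if_neg (by simp)]
          ring
        · rw [h4, if_neg (by simp)]
          by_cases htt : vv ℓ n p r t' = vv ℓ n p r t
          · rw [htt, if_pos rfl]
            rw [form_X, if_pos rfl]; ring
          · rw [if_neg (by simpa using htt)]
            rw [form_X, if_neg (fun h => htt h.symm)]; ring
      rw [sum_congr rfl fun i _ => h3 i, sum_add_distrib, ← mul_sum, ← mul_sum] at h2
      linarith
    by_cases hg : (b : ℤ) - ∑ i : Fin ℓ,
        (if z i.castSucc = El.Y p r then (a i : ℤ) else 0) = 0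
    · left
      have hall : ∀ i : Fin ℓ, z i.castSucc = El.Y p r := by
        intro i
        rcases hkind i with h4 | ⟨t, h4⟩
        · exact h4
        · exfalso
          have h5 := hbal t
          rw [hg, mul_zero] at h5
          have h6 : ∑ i : Fin ℓ, (if z i.castSucc = El.X (vv ℓ n p r t) then (a i : ℤ) else 0)
              = 0 := by
            rcases mul_eq_zero.1 h5.symm with h7 | h7
            · omega
            · exact h7
          have h7 := (sum_eq_zero_iff_of_nonneg (fun i _ => by split_ifs <;> positivity)).1 h6 i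
            (mem_univ i)
          rw [if_pos h4] at h7
          have := ha i
          omega
      refine ⟨hcast _ hall hl, ?_⟩
      have h6 := hsum (fun _ => 1)
      simp only [mul_one] at h6
      rw [h6]
      have h7 : ∑ i : Fin ℓ, (if z i.castSucc = El.Y p r then (a i : ℤ) else 0) =
          ∑ i : Fin ℓ, (a i : ℤ) := sum_congr rfl fun i _ => if_pos (hall i)
      rw [h7] at hg
      linarith
    · right
      refine ⟨p, r, rfl, fun t => ?_⟩
      by_contra hne
      push Not at hne
      have h5 := hbal t
      have h6 : ∑ i : Fin ℓ, (if z i.castSucc = El.X (vv ℓ n p r t) then (a i : ℤ) else 0)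
          = 0 := sum_eq_zero fun i _ => if_neg (hne i.castSucc)
      rw [h6, mul_zero] at h5
      rcases mul_eq_zero.1 h5 with h7 | h7
      · have := ha t; omega
      · exact hg h7

end Pool.Agent.X245.LF
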