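import Pool.Agent.NPC.Defs

/-!
# Solution-free subsets: definitions
-/

namespace Pool.Agent.X245.LF

open Pool.Agent.NPC

set_option autoImplicit false

variable {ℓ : ℕ}

/-- The coefficients `a₁, …, a_ℓ, -b` of the equation `a₁ x₁ + ⋯ + a_ℓ x_ℓ = b y`. -/
def coeff (a : Fin ℓ → ℕ) (b : ℕ) : Fin (ℓ + 1) → ℤ :=
  Fin.snoc (α := fun _ => ℤ) (fun i => (a i : ℤ)) (-(b : ℤ))

open Classical in
/-- A solution `z` is trivial: the indices can be partitioned into classes such that `z` is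
constant on every class, and the coefficients in every class sum to zero. -/
def Trivial (c : Fin (ℓ + 1) → ℤ) (z : Fin (ℓ + 1) → ℤ) : Prop :=
  ∃ r : Setoid (Fin (ℓ + 1)), (∀ i j, r i j → z i = z j) ∧ ∀ i, ∑ j with r i j, c j = 0

/-- A set of integers is `𝓛`-free: all solutions with entries in the set are trivial. -/
def LFree (c : Fin (ℓ + 1) → ℤ) (S : Set ℤ) : Prop :=
  ∀ z : Fin (ℓ + 1) → ℤ, (∀ i, z i ∈ S) → ∑ i, c i * z i = 0 → Trivial c z

/-- `𝓛`-Free Subset: does the set of the entries of the list `A` (which must not contain an entry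
twice) have an `𝓛`-free subset of cardinality at least `k`? -/
def LFS (a : Fin ℓ → ℕ) (b : ℕ) (x : List ℤ × ℕ) : Prop :=
  x.1.Nodup ∧ ∃ S : Finset ℤ, S ⊆ x.1.toFinset ∧ LFree (coeff a b) S ∧ x.2 ≤ S.card

/-- The restriction to instances with `|x| ≤ p(|A|)` for all `x ∈ A`. -/
def LFSsmall (a : Fin ℓ → ℕ) (b : ℕ) (p : Polynomial ℕ) (x : List ℤ × ℕ) : Prop :=
  (∀ y ∈ x.1, y.natAbs ≤ p.eval x.1.length) ∧ LFS a b x

end Pool.Agent.X245.LF
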