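import Pool.Agent.X245.LF.Comb

/-!
# Solution-free subsets: correctness of the reduction
-/

namespace Pool.Agent.X245.LF

set_option autoImplicit false

open Finset

variable {ℓ : ℕ} (a : Fin ℓ → ℕ) (b n : ℕ)

/-- number of variables in a relation -/
def sv (ℓ : ℕ) : ℕ := (ℓ + 1) * ℓ

/-- bound for the coefficients -/
def Cm : ℕ := (∑ i, a i) + b

/-- the base -/
def Wn : ℕ := 2 * sv ℓ * ((ℓ + 1) * Cm a b * Cm a b) * (JJ ℓ n) ^ (sv ℓ) + 1

/-- the numbers -/
def num (k : ℕ) : ℕ := geo (sv ℓ) (k * Wn a b n)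

/-- the integers -/
def val (x : El) : ℤ := value a b n (num a b n) x

/-- admissible -/
abbrev OkJ (x : El) : Prop := Ok n (JJ ℓ n) x

variable {a b n}

theorem form_out {x : El} (hx : OkJ (ℓ := ℓ) n x) {k : ℕ} (hk : JJ ℓ n ≤ k) :
    form a b n x k = 0 := by
  cases x with
  | X k0 =>
    have : k0 < JJ ℓ n := hx
    rw [form_X, if_neg (by omega)]
  | Y p r =>
    obtain ⟨h1, h2⟩ : p < r ∧ r < n := hx
    refine form_Y_ne a b n fun i => ?_
    have := vv_lt n (ℓ := ℓ) (p := p) (r := r) (by omega) h2 i.2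
    omega

theorem val_eq {x : El} (hx : OkJ (ℓ := ℓ) n x) :
    val a b n x = ∑ k ∈ range (JJ ℓ n), form a b n x k * (num a b n k : ℤ) := by
  cases x with
  | X k0 =>
    have : k0 < JJ ℓ n := hx
    rw [sum_eq_single k0]
    · rw [form_X, if_pos rfl]; rfl
    · intro k _ hk
      rw [form_X, if_neg hk, zero_mul]
    · intro h; exact absurd (mem_range.2 this) h
  | Y p r =>
    obtain ⟨h1, h2⟩ : p < r ∧ r < n := hx
    have e : ∀ k ∈ range (JJ ℓ n), form a b n (El.Y p r) k * (num a b n k : ℤ) =
        ∑ i : Fin ℓ, if k = vv ℓ n p r i then (a i : ℤ) * num a b n k else 0 := by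
      intro k _
      rw [form_Yd, sum_mul]
      refine sum_congr rfl fun i _ => ?_
      split_ifs <;> simp
    rw [sum_congr rfl e, sum_comm]
    change ∑ i : Fin ℓ, (a i : ℤ) * num a b n (vv ℓ n p r i) = _
    refine sum_congr rfl fun i _ => ?_
    rw [sum_ite_eq', if_pos (mem_range.2 (vv_lt n (by omega) h2 i.2))]

theorem form_le (x : El) (k : ℕ) : |form a b n x k| ≤ Cm a b := by
  rw [abs_of_nonneg (form_nonneg a b n x k)]
  unfold Cm
  cases x with
  | X k0 =>
    rw [form_X]
    split_ifs
    · push_cast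
      have : (0 : ℤ) ≤ ∑ i, (a i : ℤ) := sum_nonneg fun i _ => by positivity
      linarith
    · positivity
  | Y p r =>
    rw [form_Yd]
    push_cast
    have : ∑ i : Fin ℓ, (if k = vv ℓ n p r i then (a i : ℤ) else 0) ≤ ∑ i, (a i : ℤ) := by
      refine sum_le_sum fun i _ => ?_
      split_ifs
      · exact le_rfl
      · positivity
    have : (0 : ℤ) ≤ b := by positivity
    linarith

theorem card_supp (hℓ : 1 ≤ ℓ) (x : El) :
    ((range (JJ ℓ n)).filter fun k => form a b n x k ≠ 0).card ≤ ℓ := by
  cases x with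
  | X k0 =>
    have : (range (JJ ℓ n)).filter (fun k => form a b n (El.X k0) k ≠ 0) ⊆ {k0} := by
      intro k hk
      rw [mem_filter, form_X] at hk
      rw [mem_singleton]
      by_contra hne
      rw [if_neg hne] at hk
      exact hk.2 rfl
    have := card_le_card this
    rw [card_singleton] at this
    omega
  | Y p r =>
    have : (range (JJ ℓ n)).filter (fun k => form a b n (El.Y p r) k ≠ 0) ⊆
        (univ : Finset (Fin ℓ)).image (fun i : Fin ℓ => vv ℓ n p r i.val) := by
      intro k hk
      rw [mem_filter] at hk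
      by_contra hne
      refine hk.2 (form_Y_ne a b n fun i hi => hne ?_)
      rw [mem_image]
      exact ⟨i, mem_univ _, hi.symm⟩
    have := (card_le_card this).trans card_image_le
    rwa [card_univ, Fintype.card_fin] at this

/-- **Only formal relations hold.** -/
theorem indep (hℓ : 1 ≤ ℓ) {m : ℕ} (hm : m ≤ ℓ + 1) (c : Fin m → ℤ)
    (hc : ∀ j, |c j| ≤ Cm a b) (z : Fin m → El) (hz : ∀ j, OkJ (ℓ := ℓ) n (z j))
    (h : ∑ j, c j * val a b n (z j) = 0) : ∀ k, ∑ j, c j * form a b n (z j) k = 0 := by
  intro k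
  by_cases hk : JJ ℓ n ≤ k
  · exact sum_eq_zero fun j _ => by rw [form_out (hz j) hk, mul_zero]
  push Not at hk
  by_contra hne
  set lam : ℕ → ℤ := fun k => ∑ j, c j * form a b n (z j) k with hlam
  set T : Finset ℕ := (univ : Finset (Fin m)).biUnion fun j =>
    (range (JJ ℓ n)).filter fun k => form a b n (z j) k ≠ 0 with hT
  have hTc : T.card ≤ sv ℓ := by
    refine card_biUnion_le.trans ?_
    refine (sum_le_sum fun j _ => card_supp hℓ (z j)).trans ?_
    rw [sum_const, card_univ, Fintype.card_fin, smul_eq_mul]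
    exact Nat.mul_le_mul_right _ hm
  have hout : ∀ k ∈ range (JJ ℓ n), k ∉ T → lam k = 0 := by
    intro k hk hkT
    refine sum_eq_zero fun j _ => ?_
    by_cases h0 : form a b n (z j) k = 0
    · rw [h0, mul_zero]
    · exact absurd (mem_biUnion.2 ⟨j, mem_univ _, mem_filter.2 ⟨hk, h0⟩⟩) hkT
  have hTJ : T ⊆ range (JJ ℓ n) := by
    intro k hk
    obtain ⟨j, _, hj⟩ := mem_biUnion.1 hk
    exact (mem_filter.1 hj).1
  have hb : ∀ k, |lam k| ≤ ((ℓ + 1) * Cm a b * Cm a b : ℕ) := by
    intro k
    refine (abs_sum_le_sum_abs _ _).trans ?_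
    have : ∀ j ∈ (univ : Finset (Fin m)), |c j * form a b n (z j) k| ≤ (Cm a b * Cm a b : ℤ) := by
      intro j _
      rw [abs_mul]
      exact mul_le_mul (hc j) (form_le _ _) (abs_nonneg _) (by positivity)
    refine (sum_le_sum this).trans ?_
    rw [sum_const, card_univ, Fintype.card_fin, nsmul_eq_mul]
    push_cast
    rw [mul_assoc]
    exact mul_le_mul_of_nonneg_right (by exact_mod_cast hm) (by positivity)
  have hsum : ∑ k ∈ T, lam k * (geo (sv ℓ) (k * Wn a b n) : ℤ) = 0 := by
    rw [sum_subset hTJ (fun k hk hkT => by rw [hout k hk hkT, zero_mul])]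
    rw [← h]
    have e : ∀ k ∈ range (JJ ℓ n), lam k * (geo (sv ℓ) (k * Wn a b n) : ℤ) =
        ∑ j, c j * (form a b n (z j) k * (num a b n k : ℤ)) := by
      intro k _
      rw [hlam]
      simp only
      rw [sum_mul]
      refine sum_congr rfl fun j _ => ?_
      unfold num
      ring
    rw [sum_congr rfl e, sum_comm]
    refine sum_congr rfl fun j _ => ?_
    rw [← mul_sum, ← val_eq (hz j)]
  have hall := generic (sv ℓ) (JJ ℓ n) ((ℓ + 1) * Cm a b * Cm a b) (Wn a b n)
    (by unfold Wn; omega) T hTc (fun k hk => mem_range.1 (hTJ hk)) lam hb hsum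
  by_cases hkT : k ∈ T
  · exact hne (hall k hkT)
  · exact hne (hout k (mem_range.2 hk) hkT)

theorem form_inj (hℓ : 2 ≤ ℓ) (ha : ∀ i, 0 < a i) (hb : 0 < b) {x y : El}
    (hx : OkJ (ℓ := ℓ) n x) (hy : OkJ (ℓ := ℓ) n y)
    (h : ∀ k, form a b n x k = form a b n y k) : x = y := by
  have hY0 : ∀ {p r : ℕ}, p < r → r < n → form a b n (El.Y p r) p ≠ 0 := by
    intro p r hpr hr h0
    have h2 := form_Y a b n hpr hr ⟨0, by omega⟩
    have h3 : vv ℓ n p r 0 = p := by unfold vv; simp
    simp only [h3] at h2
    rw [h2] at h0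
    have := ha ⟨0, by omega⟩
    omega
  have hY1 : ∀ {p r : ℕ}, p < r → r < n → form a b n (El.Y p r) r ≠ 0 := by
    intro p r hpr hr h0
    have h2 := form_Y a b n hpr hr ⟨1, by omega⟩
    have h3 : vv ℓ n p r 1 = r := by unfold vv; simp
    simp only [h3] at h2
    rw [h2] at h0
    have := ha ⟨1, by omega⟩
    omega
  have hXX : ∀ k0 k1, form a b n (El.X k0) k1 ≠ 0 → k1 = k0 := by
    intro k0 k1 h0
    rw [form_X] at h0
    by_contra hne
    rw [if_neg hne] at h0
    exact h0 rfl
  have hYY : ∀ {p r k : ℕ}, k < n → form a b n (El.Y p r) k ≠ 0 → k = p ∨ k = r := by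
    intro p r k hk h0
    by_contra hne
    exact h0 (form_Y_ne a b n fun t ht => hne (vv_small n hk ht))
  cases x with
  | X k0 =>
    cases y with
    | X k1 =>
      have h1 := h k0
      have h2 : form a b n (El.X k0) k0 = b := by rw [form_X, if_pos rfl]
      rw [h2] at h1
      have := hXX k1 k0 (by rw [← h1]; positivity)
      rw [this]
    | Y p r =>
      obtain ⟨h1, h2⟩ : p < r ∧ r < n := hy
      have e1 := hXX k0 p (by rw [h]; exact hY0 h1 h2)
      have e2 := hXX k0 r (by rw [h]; exact hY1 h1 h2)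
      omega
  | Y p r =>
    obtain ⟨h1, h2⟩ : p < r ∧ r < n := hx
    cases y with
    | X k0 =>
      have e1 := hXX k0 p (by rw [← h]; exact hY0 h1 h2)
      have e2 := hXX k0 r (by rw [← h]; exact hY1 h1 h2)
      omega
    | Y p' r' =>
      obtain ⟨h3, h4⟩ : p' < r' ∧ r' < n := hy
      have e1 := hYY (p := p') (r := r') (k := p) (by omega) (by rw [← h]; exact hY0 h1 h2)
      have e2 := hYY (p := p') (r := r') (k := r) (by omega) (by rw [← h]; exact hY1 h1 h2)
      have e3 : p = p' := by omega
      have e4 : r = r' := by omega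
      rw [e3, e4]

theorem val_inj (hℓ : 2 ≤ ℓ) (ha : ∀ i, 0 < a i) (hb : 0 < b) {x y : El}
    (hx : OkJ (ℓ := ℓ) n x) (hy : OkJ (ℓ := ℓ) n y) (h : val a b n x = val a b n y) : x = y := by
  refine form_inj hℓ ha hb hx hy fun k => ?_
  have h1 := indep (a := a) (b := b) (n := n) (by omega) (m := 2) (by omega) ![1, -1] (by
    intro j
    have : (1 : ℤ) ≤ Cm a b := by
      unfold Cm; push_cast
      have : (0 : ℤ) ≤ ∑ i, (a i : ℤ) := sum_nonneg fun i _ => by positivity
      omega
    fin_cases j <;> simpa using this) ![x, y] (by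
    intro j
    fin_cases j
    · exact hx
    · exact hy) (by
    simp [Fin.sum_univ_two, h]) k
  simp [Fin.sum_univ_two] at h1
  linarith

/-- the list of the elements -/
def elist (ℓ n : ℕ) (E : List (ℕ × ℕ)) : List El :=
  (List.range n).map El.X ++ E.flatMap fun e =>
    El.Y e.1 e.2 :: (List.range (ℓ - 2)).map fun i => El.X (vv ℓ n e.1 e.2 (i + 2))

theorem mem_elist {E : List (ℕ × ℕ)} {x : El} : x ∈ elist ℓ n E ↔
    (∃ p < n, x = El.X p) ∨ ∃ e ∈ E, x = El.Y e.1 e.2 ∨
      ∃ i, 2 ≤ i ∧ i < ℓ ∧ x = El.X (vv ℓ n e.1 e.2 i) := by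
  unfold elist
  rw [List.mem_append, List.mem_map, List.mem_flatMap]
  constructor
  · rintro (⟨p, hp, rfl⟩ | ⟨e, he, h⟩)
    · left; exact ⟨p, List.mem_range.1 hp, rfl⟩
    · right
      refine ⟨e, he, ?_⟩
      rcases List.mem_cons.1 h with h | h
      · left; exact h
      · right
        obtain ⟨i, hi, rfl⟩ := List.mem_map.1 h
        have := List.mem_range.1 hi
        exact ⟨i + 2, by omega, by omega, rfl⟩
  · rintro (⟨p, hp, rfl⟩ | ⟨e, he, h | ⟨i, h1, h2, rfl⟩⟩)
    · left; exact ⟨p, List.mem_range.2 hp, rfl⟩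
    · right; exact ⟨e, he, by rw [h]; exact List.mem_cons_self ..⟩
    · right
      refine ⟨e, he, List.mem_cons_of_mem _ (List.mem_map.2 ⟨i - 2, List.mem_range.2 (by omega),
        ?_⟩)⟩
      rw [Nat.sub_add_cancel h1]

theorem elist_ok {E : List (ℕ × ℕ)} (hE : ∀ e ∈ E, e.1 < e.2 ∧ e.2 < n) {x : El}
    (hx : x ∈ elist ℓ n E) : OkJ (ℓ := ℓ) n x := by
  rcases mem_elist.1 hx with ⟨p, hp, rfl⟩ | ⟨e, he, rfl | ⟨i, h1, h2, rfl⟩⟩
  · change p < JJ ℓ n
    unfold JJ; omega
  · exact hE e he
  · have := hE e he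
    exact vv_lt n (by omega) this.2 h2

theorem vv_ge {p r i : ℕ} (hi : 2 ≤ i) : vv ℓ n p r i = n + (p * n + r) * ℓ + i := by
  unfold vv
  rw [if_neg (by omega), if_neg (by omega)]

theorem vv_inj2 {p r i p' r' i' : ℕ} (hr : r < n) (hr' : r' < n) (hi : 2 ≤ i) (hiℓ : i < ℓ)
    (hi' : 2 ≤ i') (hiℓ' : i' < ℓ) (h : vv ℓ n p r i = vv ℓ n p' r' i') :
    p = p' ∧ r = r' ∧ i = i' := by
  rw [vv_ge hi, vv_ge hi'] at h
  have h1 : (p * n + r) * ℓ + i = (p' * n + r') * ℓ + i' := by omega
  have h2 : p * n + r = p' * n + r' := by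
    have e1 : ((p * n + r) * ℓ + i) / ℓ = p * n + r := by
      rw [mul_comm, Nat.mul_add_div (by omega), Nat.div_eq_of_lt hiℓ, add_zero]
    have e2 : ((p' * n + r') * ℓ + i') / ℓ = p' * n + r' := by
      rw [mul_comm, Nat.mul_add_div (by omega), Nat.div_eq_of_lt hiℓ', add_zero]
    rw [← e1, ← e2, h1]
  have h3 : p = p' := by
    have e1 : (p * n + r) / n = p := by
      rw [mul_comm, Nat.mul_add_div (by omega), Nat.div_eq_of_lt hr, add_zero]
    have e2 : (p' * n + r') / n = p' := by
      rw [mul_comm, Nat.mul_add_div (by omega), Nat.div_eq_of_lt hr', add_zero]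
    rw [← e1, ← e2, h2]
  subst h3
  have h4 : r = r' := by omega
  subst h4
  exact ⟨rfl, rfl, by omega⟩

theorem elist_nodup {E : List (ℕ × ℕ)} (hE : ∀ e ∈ E, e.1 < e.2 ∧ e.2 < n) (hnd : E.Nodup) :
    (elist ℓ n E).Nodup := by
  unfold elist
  rw [List.nodup_append]
  refine ⟨List.nodup_range.map (fun x y h => by simpa using h), ?_, ?_⟩
  · rw [List.nodup_flatMap]
    constructor
    · intro e he
      rw [List.nodup_cons]
      constructor
      · intro h
        obtain ⟨i, _, hi⟩ := List.mem_map.1 h
        simp at hi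
      · refine List.nodup_range.map_on ?_
        intro x hx y hy hxy
        have hx := List.mem_range.1 hx
        have hy := List.mem_range.1 hy
        have h1 : vv ℓ n e.1 e.2 (x + 2) = vv ℓ n e.1 e.2 (y + 2) := by simpa using hxy
        have := (vv_inj2 (ℓ := ℓ) (hE e he).2 (hE e he).2 (by omega) (by omega) (by omega)
          (by omega) h1).2.2
        omega
    · refine hnd.imp_of_mem ?_
      intro e e' he he' hne
      rw [Function.onFun, List.disjoint_left]
      intro x hx hx'
      have h1 := hE e he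
      have h2 := hE e' he'
      rcases List.mem_cons.1 hx with rfl | hx
      · rcases List.mem_cons.1 hx' with hx' | hx'
        · simp only [El.Y.injEq] at hx'
          exact hne (Prod.ext hx'.1 hx'.2)
        · obtain ⟨i, _, hi⟩ := List.mem_map.1 hx'
          simp at hi
      · obtain ⟨i, hi, rfl⟩ := List.mem_map.1 hx
        have hi := List.mem_range.1 hi
        rcases List.mem_cons.1 hx' with hx' | hx'
        · simp at hx'
        · obtain ⟨j, hj, hij⟩ := List.mem_map.1 hx'
          have hj := List.mem_range.1 hj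
          have h3 : vv ℓ n e'.1 e'.2 (j + 2) = vv ℓ n e.1 e.2 (i + 2) := by simpa using hij
          have := vv_inj2 (ℓ := ℓ) h2.2 h1.2 (by omega) (by omega) (by omega) (by omega) h3
          exact hne (Prod.ext this.1.symm this.2.1.symm)
  · intro x hx y hy hxy
    subst hxy
    obtain ⟨p, hp, rfl⟩ := List.mem_map.1 hx
    have hp := List.mem_range.1 hp
    obtain ⟨e, he, hy⟩ := List.mem_flatMap.1 hy
    rcases List.mem_cons.1 hy with hy | hy
    · simp at hy
    · obtain ⟨j, hj, hij⟩ := List.mem_map.1 hy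
      have h3 : vv ℓ n e.1 e.2 (j + 2) = p := by simpa using hij
      rw [vv_ge (by omega)] at h3
      omega

theorem length_elist {E : List (ℕ × ℕ)} (hℓ : 2 ≤ ℓ) :
    (elist ℓ n E).length = n + E.length * (ℓ - 1) := by
  unfold elist
  rw [List.length_append, List.length_map, List.length_range, List.length_flatMap]
  congr 1
  simp only [List.length_cons, List.length_map, List.length_range]
  rw [List.map_const', List.sum_replicate, smul_eq_mul]
  congr 1
  omega

/-- assignment of elements to vertices -/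
def gg (ℓ n : ℕ) : El → ℕ
  | El.X k => if k < n then k else (k - n) / ℓ / n
  | El.Y p _ => p

theorem coeff_bound (j : Fin (ℓ + 1)) : |coeff a b j| ≤ Cm a b := by
  unfold Cm
  push_cast
  refine Fin.lastCases ?_ ?_ j
  · unfold coeff
    rw [Fin.snoc_last, abs_neg, abs_of_nonneg (by positivity)]
    have : (0 : ℤ) ≤ ∑ i, (a i : ℤ) := sum_nonneg fun i _ => by positivity
    linarith
  · intro i
    unfold coeff
    rw [Fin.snoc_castSucc, abs_of_nonneg (by positivity)]
    have : (a i : ℤ) ≤ ∑ i, (a i : ℤ) :=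
      single_le_sum (f := fun i => (a i : ℤ)) (fun i _ => by positivity) (mem_univ i)
    have : (0 : ℤ) ≤ b := by positivity
    linarith

theorem red_iff (hℓ : 2 ≤ ℓ) (ha : ∀ i, 0 < a i) (hb : 0 < b) {E : List (ℕ × ℕ)}
    (hE : ∀ e ∈ E, e.1 < e.2 ∧ e.2 < n) (hnd : E.Nodup) {k : ℕ} (hk : k ≤ n) :
    LFS a b ((elist ℓ n E).map (val a b n), k + E.length * (ℓ - 1)) ↔
      ∃ Q ⊆ range n, k ≤ Q.card ∧ ∀ e ∈ E, ¬ (e.1 ∈ Q ∧ e.2 ∈ Q) := by
  classical
  have hnd1 := elist_nodup (ℓ := ℓ) hE hnd
  have hinj : ∀ x ∈ elist ℓ n E, ∀ y ∈ elist ℓ n E, val a b n x = val a b n y → x = y :=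
    fun x hx y hy h => val_inj hℓ ha hb (elist_ok hE hx) (elist_ok hE hy) h
  have hAnd : ((elist ℓ n E).map (val a b n)).Nodup := hnd1.map_on hinj
  have hcardE : (elist ℓ n E).toFinset.card = n + E.length * (ℓ - 1) := by
    rw [List.toFinset_card_of_nodup hnd1, length_elist hℓ]
  constructor
  · rintro ⟨-, S, hS, hfree, hcard⟩
    simp only at hS hcard
    set E' : Finset El := (elist ℓ n E).toFinset.filter fun x => val a b n x ∉ S with hE'
    have h1 : ((elist ℓ n E).toFinset.filter fun x => val a b n x ∈ S).card = S.card := by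
      have h2 : ((elist ℓ n E).toFinset.filter fun x => val a b n x ∈ S).image (val a b n) = S := by
        ext y
        rw [mem_image]
        constructor
        · rintro ⟨x, hx, rfl⟩
          exact (mem_filter.1 hx).2
        · intro hy
          have h3 := List.mem_toFinset.1 (hS hy)
          obtain ⟨x, hx, rfl⟩ := List.mem_map.1 h3
          exact ⟨x, mem_filter.2 ⟨List.mem_toFinset.2 hx, hy⟩, rfl⟩
      rw [← h2, card_image_of_injOn]
      · rw [h2]
      · intro x hx y hy hxy
        rw [mem_coe, mem_filter, List.mem_toFinset] at hx hy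
        exact hinj x hx.1 y hy.1 hxy
    have h2 := card_filter_add_card_filter_not (s := (elist ℓ n E).toFinset)
      (fun x => val a b n x ∈ S)
    rw [h1, hcardE] at h2
    have h3 : (E'.image (gg ℓ n)).card ≤ n - k := by
      refine card_image_le.trans ?_
      have : E'.card + S.card = n + E.length * (ℓ - 1) := by rw [hE']; omega
      omega
    refine ⟨range n \ E'.image (gg ℓ n), sdiff_subset, ?_, ?_⟩
    · have := le_card_sdiff (E'.image (gg ℓ n)) (range n)
      rw [card_range] at this
      omega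
    · rintro ⟨p, r⟩ he ⟨hp, hr⟩
      simp only at hp hr
      rw [mem_sdiff, mem_range] at hp hr
      obtain ⟨hpr, hrn⟩ : p < r ∧ r < n := hE _ he
      have hin : ∀ x ∈ elist ℓ n E, gg ℓ n x ∉ E'.image (gg ℓ n) → val a b n x ∈ S := by
        intro x hx hgx
        by_contra hxS
        exact hgx (mem_image_of_mem _ (mem_filter.2 ⟨List.mem_toFinset.2 hx, hxS⟩))
      have hY : val a b n (El.Y p r) ∈ S :=
        hin _ (mem_elist.2 (Or.inr ⟨(p, r), he, Or.inl rfl⟩)) hp.2
      have hX : ∀ i : Fin ℓ, val a b n (El.X (vv ℓ n p r i)) ∈ S := by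
        intro i
        rcases Nat.lt_or_ge i.val 2 with h4 | h4
        · have h5 : vv ℓ n p r i = p ∨ vv ℓ n p r i = r := by
            unfold vv
            split_ifs
            · left; rfl
            · right; rfl
            · omega
          rcases h5 with h5 | h5 <;> rw [h5]
          · refine hin _ (mem_elist.2 (Or.inl ⟨p, by omega, rfl⟩)) ?_
            change (if p < n then p else _) ∉ _
            rw [if_pos (by omega)]; exact hp.2
          · refine hin _ (mem_elist.2 (Or.inl ⟨r, by omega, rfl⟩)) ?_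
            change (if r < n then r else _) ∉ _
            rw [if_pos (by omega)]; exact hr.2
        · refine hin _ (mem_elist.2 (Or.inr ⟨(p, r), he, Or.inr ⟨i, h4, i.2, rfl⟩⟩)) ?_
          have h5 : gg ℓ n (El.X (vv ℓ n p r i)) = p := by
            change (if vv ℓ n p r i < n then _ else (vv ℓ n p r i - n) / ℓ / n) = p
            rw [vv_ge h4, if_neg (by omega)]
            have e1 : n + (p * n + r) * ℓ + i.val - n = ℓ * (p * n + r) + i.val := by
              rw [mul_comm ℓ]; omega
            rw [e1, Nat.mul_add_div (by omega), Nat.div_eq_of_lt i.2, add_zero, mul_comm,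
              Nat.mul_add_div (by omega), Nat.div_eq_of_lt hrn, add_zero]
          rw [h5]; exact hp.2
      set z : Fin (ℓ + 1) → El := Fin.snoc (α := fun _ => El) (fun i => El.X (vv ℓ n p r i))
        (El.Y p r) with hz
      have hzl : z (Fin.last ℓ) = El.Y p r := by rw [hz, Fin.snoc_last]
      have hzc : ∀ i : Fin ℓ, z i.castSucc = El.X (vv ℓ n p r i) := by
        intro i; rw [hz, Fin.snoc_castSucc]
      have hzok : ∀ i, OkJ (ℓ := ℓ) n (z i) := by
        intro i
        refine Fin.lastCases ?_ (fun i => ?_) i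
        · rw [hzl]; exact ⟨hpr, hrn⟩
        · rw [hzc]; exact vv_lt n (by omega) hrn i.2
      have htriv := hfree (fun i => val a b n (z i)) (by
        intro i
        refine Fin.lastCases ?_ (fun i => ?_) i
        · rw [hzl]; exact hY
        · rw [hzc]; exact hX i) (by
        rw [Fin.sum_univ_castSucc]
        unfold coeff
        simp only [Fin.snoc_castSucc, Fin.snoc_last]
        rw [hzl]
        have e1 : val a b n (El.Y p r) = ∑ i : Fin ℓ, (a i : ℤ) * num a b n (vv ℓ n p r i) := rfl
        have e2 : ∀ i : Fin ℓ, (a i : ℤ) * val a b n (z i.castSucc) =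
            b * ((a i : ℤ) * num a b n (vv ℓ n p r i)) := by
          intro i
          rw [hzc]
          change (a i : ℤ) * (b * num a b n (vv ℓ n p r i)) = _
          ring
        rw [sum_congr rfl fun i _ => e2 i, ← mul_sum, e1]
        ring)
      obtain ⟨rr, hr1, hr2⟩ := htriv
      have h5 := hr2 (Fin.last ℓ)
      have h6 : (univ.filter fun j => rr (Fin.last ℓ) j) = {Fin.last ℓ} := by
        ext j
        rw [mem_filter, mem_singleton]
        constructor
        · rintro ⟨_, hj⟩
          have h7 := hr1 _ _ hj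
          have h8 := val_inj hℓ ha hb (hzok _) (hzok _) h7
          revert h8
          refine Fin.lastCases (fun _ => rfl) (fun i => ?_) j
          rw [hzl, hzc]
          intro h8
          simp at h8
        · rintro rfl
          exact ⟨mem_univ _, rr.refl _⟩
      have h7 : ∑ j with rr (Fin.last ℓ) j, coeff a b j = coeff a b (Fin.last ℓ) := by
        have h8 : ∑ j ∈ (univ.filter fun j => rr (Fin.last ℓ) j), coeff a b j =
            coeff a b (Fin.last ℓ) := by rw [h6, sum_singleton]
        exact h8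
      have h8 : coeff a b (Fin.last ℓ) = 0 := by
        rw [← h7]
        convert h5
      unfold coeff at h8
      rw [Fin.snoc_last] at h8
      omega
  · rintro ⟨Q, hQ, hQk, hQE⟩
    refine ⟨hAnd, (((elist ℓ n E).toFinset.filter fun x =>
      ∀ p < n, x = El.X p → p ∈ Q).image (val a b n)), ?_, ?_, ?_⟩
    · intro y hy
      obtain ⟨x, hx, rfl⟩ := mem_image.1 hy
      exact List.mem_toFinset.2 (List.mem_map_of_mem (List.mem_toFinset.1 (mem_filter.1 hx).1))
    · intro z hz hsum
      have hz' : ∀ i, ∃ x ∈ (elist ℓ n E).toFinset.filter fun x =>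
          ∀ p < n, x = El.X p → p ∈ Q, val a b n x = z i := by
        intro i
        have := hz i
        rw [coe_image] at this
        obtain ⟨x, hx, hxz⟩ := this
        exact ⟨x, hx, hxz⟩
      choose x hx hxz using hz'
      have hxe : ∀ i, x i ∈ elist ℓ n E := fun i => List.mem_toFinset.1 (mem_filter.1 (hx i)).1
      have hok : ∀ i, OkJ (ℓ := ℓ) n (x i) := fun i => elist_ok hE (hxe i)
      have h1 := indep (a := a) (b := b) (by omega) le_rfl (coeff a b) coeff_bound x hok (by
        rw [← hsum]
        refine sum_congr rfl fun i _ => by rw [hxz])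
      rcases formal hℓ ha hb x hok h1 with ⟨h2, h3⟩ | ⟨p, r, h2, h3⟩
      · refine ⟨⟨fun _ _ => True, ⟨fun _ => trivial, fun _ => trivial, fun _ _ => trivial⟩⟩,
          ?_, ?_⟩
        · intro i j _
          rw [← hxz, ← hxz, h2 i, h2 j]
        · intro i
          rw [← h3]
          refine sum_congr ?_ fun _ _ => rfl
          ext j
          simp only [mem_filter, mem_univ, true_and, iff_true]
      · exfalso
        have hYm := hxe (Fin.last ℓ)
        rw [h2] at hYm
        rcases mem_elist.1 hYm with ⟨p', _, h4⟩ | ⟨e, he, h4 | ⟨i, _, _, h4⟩⟩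
        · simp at h4
        · simp only [El.Y.injEq] at h4
          obtain ⟨hpr, hrn⟩ := hE e he
          rw [← h4.1, ← h4.2] at hpr
          rw [← h4.2] at hrn
          have hp : p ∈ Q := by
            obtain ⟨j, hj⟩ := h3 ⟨0, by omega⟩
            have h5 : vv ℓ n p r 0 = p := by unfold vv; simp
            simp only [h5] at hj
            exact (mem_filter.1 (hx j)).2 p (by omega) hj
          have hr : r ∈ Q := by
            obtain ⟨j, hj⟩ := h3 ⟨1, by omega⟩
            have h5 : vv ℓ n p r 1 = r := by unfold vv; simp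
            simp only [h5] at hj
            exact (mem_filter.1 (hx j)).2 r hrn hj
          refine hQE e he ?_
          rw [← h4.1, ← h4.2]
          exact ⟨hp, hr⟩
        · simp at h4
    · simp only
      rw [card_image_of_injOn]
      · have h1 := card_filter_add_card_filter_not (s := (elist ℓ n E).toFinset)
          (fun x => ∀ p < n, x = El.X p → p ∈ Q)
        have h2 : ((elist ℓ n E).toFinset.filter fun x =>
            ¬ ∀ p < n, x = El.X p → p ∈ Q).card ≤ n - Q.card := by
          have h3 : ((elist ℓ n E).toFinset.filter fun x => ¬ ∀ p < n, x = El.X p → p ∈ Q) ⊆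
              (range n \ Q).image El.X := by
            intro x hx
            have := (mem_filter.1 hx).2
            push Not at this
            obtain ⟨p, hp, rfl, hpQ⟩ := this
            exact mem_image_of_mem _ (mem_sdiff.2 ⟨mem_range.2 hp, hpQ⟩)
          refine (card_le_card h3).trans (card_image_le.trans ?_)
          rw [card_sdiff_of_subset hQ, card_range]
        have h4 : Q.card ≤ n := by
          have := card_le_card hQ
          rwa [card_range] at this
        omega
      · intro x hx y hy hxy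
        rw [mem_coe, mem_filter, List.mem_toFinset] at hx hy
        exact hinj x hx.1 y hy.1 hxy

end Pool.Agent.X245.LF
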