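import Pool.Agent.X245.LF.Main
import Pool.Agent.X249.IS
import Pool.Agent.H687R2.IntPoly
import Pool.Agent.H671R2.PolyAuto

/-!
# Solution-free subsets: the reduction is polynomial
-/

namespace Pool.Agent.X245.LF

open Pool.Agent.NPC Pool.Agent.NPC.H634R2 Pool.Agent.X249

set_option autoImplicit false

variable {ℓ : ℕ} (a : Fin ℓ → ℕ) (b : ℕ)

/-- polynomially bounded -/
def PB (f : ℕ → ℕ) : Prop := ∃ p : Polynomial ℕ, ∀ n, f n ≤ p.eval n

theorem PB.const (c : ℕ) : PB (fun _ => c) := ⟨Polynomial.C c, fun n => by simp⟩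

theorem PB.id : PB (fun n => n) := ⟨Polynomial.X, fun n => by simp⟩

theorem PB.add {f g : ℕ → ℕ} (hf : PB f) (hg : PB g) : PB (fun n => f n + g n) := by
  obtain ⟨p, hp⟩ := hf
  obtain ⟨q, hq⟩ := hg
  exact ⟨p + q, fun n => by rw [Polynomial.eval_add]; exact Nat.add_le_add (hp n) (hq n)⟩

theorem PB.mul {f g : ℕ → ℕ} (hf : PB f) (hg : PB g) : PB (fun n => f n * g n) := by
  obtain ⟨p, hp⟩ := hf
  obtain ⟨q, hq⟩ := hg
  exact ⟨p * q, fun n => by rw [Polynomial.eval_mul]; exact Nat.mul_le_mul (hp n) (hq n)⟩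

theorem PB.pow {f : ℕ → ℕ} (hf : PB f) (k : ℕ) : PB (fun n => f n ^ k) := by
  induction k with
  | zero => simpa using PB.const 1
  | succ k ih => simpa only [pow_succ] using ih.mul hf

theorem PB.geo {f : ℕ → ℕ} (hf : PB f) (s : ℕ) : PB (fun n => LF.geo s (f n)) := by
  induction s with
  | zero => exact PB.const 0
  | succ s ih => exact (PB.const 1).add (hf.mul ih)

theorem geo_mono (s : ℕ) {x y : ℕ} (h : x ≤ y) : geo s x ≤ geo s y := by
  induction s with
  | zero => exact le_rfl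
  | succ s ih => exact Nat.add_le_add_left (Nat.mul_le_mul h ih) 1

theorem PB.JJ : PB (fun n => LF.JJ ℓ n) :=
  ((PB.id).add (((PB.id.mul PB.id).add PB.id).mul (PB.const ℓ))).add (PB.const ℓ)

theorem PB.Wn : PB (fun n => LF.Wn a b n) :=
  ((PB.const _).mul (PB.JJ.pow _)).add (PB.const 1)

/-- bound for the numbers -/
def MM (n : ℕ) : ℕ := Cm a b * geo (sv ℓ) (JJ ℓ n * Wn a b n)

theorem PB.MM : PB (fun n => LF.MM a b n) :=
  (PB.const _).mul ((PB.JJ.mul (PB.Wn a b)).geo _)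

variable {a b}

theorem num_le {n k : ℕ} (hk : k ≤ JJ ℓ n) : num a b n k ≤ geo (sv ℓ) (JJ ℓ n * Wn a b n) :=
  geo_mono _ (Nat.mul_le_mul_right _ hk)

theorem val_le {n : ℕ} {x : El} (hx : OkJ (ℓ := ℓ) n x) : (val a b n x).natAbs ≤ MM a b n := by
  cases x with
  | X k =>
    have hk : k < JJ ℓ n := hx
    change ((b : ℤ) * num a b n k).natAbs ≤ _
    rw [Int.natAbs_mul, Int.natAbs_natCast, Int.natAbs_natCast]
    exact Nat.mul_le_mul (by unfold Cm; omega) (num_le hk.le)
  | Y p r =>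
    obtain ⟨h1, h2⟩ : p < r ∧ r < n := hx
    have e : val a b n (El.Y p r) =
        ((∑ i : Fin ℓ, a i * num a b n (vv ℓ n p r i) : ℕ) : ℤ) := by
      change (∑ i : Fin ℓ, (a i : ℤ) * num a b n (vv ℓ n p r i)) = _
      push_cast
      rfl
    rw [e, Int.natAbs_natCast]
    have h3 : ∑ i : Fin ℓ, a i * num a b n (vv ℓ n p r i) ≤
        ∑ i : Fin ℓ, a i * geo (sv ℓ) (JJ ℓ n * Wn a b n) :=
      Finset.sum_le_sum fun i _ => Nat.mul_le_mul_left _
        (num_le (vv_lt n (by omega) h2 i.2).le)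
    rw [← Finset.sum_mul] at h3
    refine h3.trans (Nat.mul_le_mul_right _ ?_)
    unfold Cm
    omega

/-! ### the reduction -/

/-- orientation -/
def ori (E : List (ℕ × ℕ)) : List (ℕ × ℕ) := E.map fun e => (min e.1 e.2, max e.1 e.2)

/-- the instances -/
noncomputable def red (a : Fin ℓ → ℕ) (b : ℕ) (I : (List ℕ × List (ℕ × ℕ)) × ℕ) : List ℤ × ℕ :=
  if I.2 ≤ I.1.1.length then
    ((elist ℓ I.1.1.length (ori I.1.2)).map (val a b I.1.1.length),
      I.2 + (ori I.1.2).length * (ℓ - 1))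
  else ([], 1)

theorem ori_ok {I : (List ℕ × List (ℕ × ℕ)) × ℕ} (h : Norm I) :
    ∀ e ∈ ori I.1.2, e.1 < e.2 ∧ e.2 < I.1.1.length := by
  intro e he
  obtain ⟨e', he', rfl⟩ := List.mem_map.1 he
  obtain ⟨h1, h2, h3⟩ := h.1.2.1 e' he'
  rw [h.2.1, List.mem_range] at h1 h2
  simp only
  omega

theorem ori_nodup {I : (List ℕ × List (ℕ × ℕ)) × ℕ} (h : Norm I) : (ori I.1.2).Nodup := by
  have h1 := h.1.2.2
  have h2 : ((ori I.1.2).map fun e => s(e.1, e.2)) = I.1.2.map fun e => s(e.1, e.2) := by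
    unfold ori
    rw [List.map_map]
    refine List.map_congr_left fun e _ => ?_
    simp only [Function.comp_apply]
    rcases le_total e.1 e.2 with h3 | h3
    · rw [min_eq_left h3, max_eq_right h3]
    · rw [min_eq_right h3, max_eq_left h3, Sym2.eq_swap]
  rw [← h2] at h1
  exact h1.of_map

theorem red_iff' (hℓ : 2 ≤ ℓ) (ha : ∀ i, 0 < a i) (hb : 0 < b)
    {I : (List ℕ × List (ℕ × ℕ)) × ℕ} (h : Norm I) : INDSET I ↔ LFS a b (red a b I) := by
  have hIS : INDSET I ↔ HasIS I.1.1 I.1.2 I.2 := and_iff_right h.1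
  have hV : ∀ v, v ∈ I.1.1 ↔ v < I.1.1.length := by
    intro v
    have h1 := h.2.1
    constructor
    · intro hv
      rw [h1, List.mem_range] at hv
      exact hv
    · intro hv
      rw [h1, List.mem_range]
      exact hv
  rw [hIS]
  unfold red
  split_ifs with hk
  · rw [red_iff hℓ ha hb (ori_ok h) (ori_nodup h) hk]
    constructor
    · rintro ⟨S, h1, h2, h3⟩
      refine ⟨S, fun v hv => Finset.mem_range.2 ((hV v).1 (h1 v hv)), h2.ge, ?_⟩
      intro e he
      obtain ⟨e', he', rfl⟩ := List.mem_map.1 he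
      rintro ⟨h4, h5⟩
      refine h3 e' he' ?_
      simp only at h4 h5
      rcases le_total e'.1 e'.2 with h6 | h6
      · rw [min_eq_left h6] at h4
        rw [max_eq_right h6] at h5
        exact ⟨h4, h5⟩
      · rw [min_eq_right h6] at h4
        rw [max_eq_left h6] at h5
        exact ⟨h5, h4⟩
    · rintro ⟨Q, h1, h2, h3⟩
      obtain ⟨S, hS, hSc⟩ := Finset.exists_subset_card_eq h2
      refine ⟨S, fun v hv => (hV v).2 (Finset.mem_range.1 (h1 (hS hv))), hSc, ?_⟩
      rintro e he ⟨h4, h5⟩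
      refine h3 (min e.1 e.2, max e.1 e.2) (List.mem_map.2 ⟨e, he, rfl⟩) ?_
      simp only
      rcases le_total e.1 e.2 with h6 | h6
      · rw [min_eq_left h6, max_eq_right h6]
        exact ⟨hS h4, hS h5⟩
      · rw [min_eq_right h6, max_eq_left h6]
        exact ⟨hS h5, hS h4⟩
  · constructor
    · rintro ⟨S, h1, h2, _⟩
      have h3 : S ⊆ Finset.range I.1.1.length := fun v hv => Finset.mem_range.2 ((hV v).1 (h1 v hv))
      have h4 := Finset.card_le_card h3
      rw [Finset.card_range] at h4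
      omega
    · rintro ⟨_, S, h1, _, h2⟩
      have h3 := Finset.card_le_card h1
      simp at h3
      subst h3
      simp at h2

theorem red_small {p : Polynomial ℕ} (hℓ : 2 ≤ ℓ) (hp : ∀ n, MM a b n ≤ p.eval n)
    (hmono : ∀ m n : ℕ, m ≤ n → p.eval m ≤ p.eval n)
    {I : (List ℕ × List (ℕ × ℕ)) × ℕ} (h : Norm I) :
    ∀ y ∈ (red a b I).1, y.natAbs ≤ p.eval (red a b I).1.length := by
  unfold red
  split_ifs with hk
  · intro y hy
    obtain ⟨x, hx, rfl⟩ := List.mem_map.1 hy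
    refine (val_le (elist_ok (ori_ok h) hx)).trans ((hp _).trans (hmono _ _ ?_))
    rw [List.length_map, length_elist hℓ]
    omega
  · intro y hy
    simp at hy

/-! ### polynomial time -/

section poly

variable {α : Type} [TEnc α]

theorem poly_geo (s : ℕ) {f : α → ℕ} (hf : NPC.Poly f) : NPC.Poly (fun x => geo s (f x)) := by
  induction s with
  | zero => exact NPC.Poly.const 0
  | succ s ih => exact NPC.Poly.add (NPC.Poly.const 1) (NPC.Poly.mul hf ih)

theorem poly_JJ {f : α → ℕ} (hf : NPC.Poly f) : NPC.Poly (fun x => JJ ℓ (f x)) := by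
  unfold JJ
  fun_prop

theorem poly_Wn {f : α → ℕ} (hf : NPC.Poly f) : NPC.Poly (fun x => Wn a b (f x)) := by
  unfold Wn
  exact NPC.Poly.add (NPC.Poly.mul (NPC.Poly.const _) (NPC.Poly.npow (poly_JJ hf) (UPoly.const _)))
    (NPC.Poly.const 1)

theorem poly_num {f k : α → ℕ} (hf : NPC.Poly f) (hk : NPC.Poly k) :
    NPC.Poly (fun x => num a b (f x) (k x)) :=
  poly_geo _ (NPC.Poly.mul hk (poly_Wn hf))

theorem poly_vv {f p r i : α → ℕ} (hf : NPC.Poly f) (hp : NPC.Poly p) (hr : NPC.Poly r)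
    (hi : NPC.Poly i) : NPC.Poly (fun x => vv ℓ (f x) (p x) (r x) (i x)) := by
  unfold vv
  fun_prop

theorem poly_valX {f k : α → ℕ} (hf : NPC.Poly f) (hk : NPC.Poly k) :
    NPC.Poly (fun x => val a b (f x) (El.X (k x))) := by
  refine (NPC.Poly.natCast (NPC.Poly.mul (NPC.Poly.const b) (poly_num (a := a) (b := b) hf hk))).congr
    fun x => ?_
  change _ = (b : ℤ) * num a b (f x) (k x)
  push_cast
  rfl

theorem poly_valY {f p r : α → ℕ} (hf : NPC.Poly f) (hp : NPC.Poly p) (hr : NPC.Poly r) :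
    NPC.Poly (fun x => val a b (f x) (El.Y (p x) (r x))) := by
  have h1 : NPC.Poly (fun y : α × (ℕ × ℕ) =>
      y.2.2 * num a b (f y.1) (vv ℓ (f y.1) (p y.1) (r y.1) y.2.1)) := by
    refine NPC.Poly.mul (by fun_prop) (poly_num (hf.comp (NPC.Poly.fst NPC.Poly.id)) ?_)
    exact poly_vv (hf.comp (NPC.Poly.fst NPC.Poly.id)) (hp.comp (NPC.Poly.fst NPC.Poly.id))
      (hr.comp (NPC.Poly.fst NPC.Poly.id)) (by fun_prop)
  have h2 : NPC.Poly (fun x => ((((List.finRange ℓ).map fun i => (i.val, a i)).map fun y =>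
      y.2 * num a b (f x) (vv ℓ (f x) (p x) (r x) y.1)).sum : ℕ)) :=
    NPC.Poly.sum (NPC.Poly.map (F := fun x (y : ℕ × ℕ) =>
      y.2 * num a b (f x) (vv ℓ (f x) (p x) (r x) y.1)) (NPC.Poly.const _) h1)
  refine (NPC.Poly.natCast h2).congr fun x => ?_
  change _ = ∑ i : Fin ℓ, (a i : ℤ) * num a b (f x) (vv ℓ (f x) (p x) (r x) i)
  have h3 : ∑ i : Fin ℓ, a i * num a b (f x) (vv ℓ (f x) (p x) (r x) i) =
      (((List.finRange ℓ).map fun i => (i.val, a i)).map fun y =>
      y.2 * num a b (f x) (vv ℓ (f x) (p x) (r x) y.1)).sum := by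
    rw [List.map_map, ← List.sum_ofFn, List.ofFn_eq_map]
    rfl
  rw [← h3]
  push_cast
  rfl

theorem poly_red : NPC.Poly (red a b) := by
  unfold red
  have hori : NPC.Poly (fun I : (List ℕ × List (ℕ × ℕ)) × ℕ => ori I.1.2) := by
    unfold ori
    fun_prop
  have hn : NPC.Poly (fun I : (List ℕ × List (ℕ × ℕ)) × ℕ => I.1.1.length) := by fun_prop
  have hX : NPC.Poly (fun I : (List ℕ × List (ℕ × ℕ)) × ℕ =>
      (List.range I.1.1.length).map fun k => val a b I.1.1.length (El.X k)) := by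
    refine NPC.Poly.map (l := fun I : (List ℕ × List (ℕ × ℕ)) × ℕ => List.range I.1.1.length)
      (F := fun I k => val a b I.1.1.length (El.X k)) ?_ ?_
    · exact (UPoly.length (by fun_prop)).range
    · exact poly_valX (by fun_prop) (by fun_prop)
  have hY : NPC.Poly (fun I : (List ℕ × List (ℕ × ℕ)) × ℕ =>
      (ori I.1.2).flatMap fun e => val a b I.1.1.length (El.Y e.1 e.2) ::
        (List.range (ℓ - 2)).map fun i => val a b I.1.1.length
          (El.X (vv ℓ I.1.1.length e.1 e.2 (i + 2)))) := by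
    refine NPC.Poly.flatMap (l := fun I : (List ℕ × List (ℕ × ℕ)) × ℕ => ori I.1.2)
      (F := fun I e => val a b I.1.1.length (El.Y e.1 e.2) ::
        (List.range (ℓ - 2)).map fun i => val a b I.1.1.length
          (El.X (vv ℓ I.1.1.length e.1 e.2 (i + 2)))) hori ?_
    refine NPC.Poly.cons (poly_valY (by fun_prop) (by fun_prop) (by fun_prop)) ?_
    refine NPC.Poly.map (l := fun _ : ((List ℕ × List (ℕ × ℕ)) × ℕ) × (ℕ × ℕ) => List.range (ℓ - 2))
      (F := fun y i => val a b y.1.1.1.length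
          (El.X (vv ℓ y.1.1.1.length y.2.1 y.2.2 (i + 2)))) (NPC.Poly.const _) ?_
    exact poly_valX (by fun_prop) (poly_vv (by fun_prop) (by fun_prop) (by fun_prop) (by fun_prop))
  have hE : NPC.Poly (fun I : (List ℕ × List (ℕ × ℕ)) × ℕ =>
      (elist ℓ I.1.1.length (ori I.1.2)).map (val a b I.1.1.length)) := by
    refine (NPC.Poly.append hX hY).congr fun I => ?_
    unfold elist
    rw [List.map_append, List.map_map, List.map_flatMap]
    congr 1
    refine congrArg (fun F => List.flatMap F (ori I.1.2)) (funext fun e => ?_)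
    rw [List.map_cons, List.map_map]
    rfl
  have hk : NPC.Poly (fun I : (List ℕ × List (ℕ × ℕ)) × ℕ =>
      I.2 + (ori I.1.2).length * (ℓ - 1)) := by fun_prop
  refine NPC.Poly.ite (by fun_prop) (NPC.Poly.pair hE hk) (NPC.Poly.const _)

end poly

/-- **Strong NP-hardness.** -/
theorem strong (hℓ : 2 ≤ ℓ) (ha : ∀ i, 0 < a i) (hb : 0 < b) :
    ∃ p : Polynomial ℕ, HardI (LFSsmall a b p) := by
  obtain ⟨p, hp⟩ := PB.MM a b
  refine ⟨p, ?_⟩
  have hmono : ∀ m n : ℕ, m ≤ n → p.eval m ≤ p.eval n := by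
    intro m n hmn
    rw [Polynomial.eval_eq_sum_range, Polynomial.eval_eq_sum_range]
    exact Finset.sum_le_sum fun i _ => Nat.mul_le_mul_left _ (Nat.pow_le_pow_left hmn i)
  refine (hardPr_IS.trans (poly_red (a := a) (b := b)) (Pr' := fun _ => True) (fun _ _ => trivial)
    (fun I h => ?_)).toHardI
  rw [red_iff' hℓ ha hb h]
  exact (and_iff_right (red_small hℓ hp hmono h)).symm

end Pool.Agent.X245.LF
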